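import Pool.Agent.TH612.GS.Stm
import Pool.Agent.H401R2.EM

/-!
# GS-ONE (helper811): the zeta function on the 1-line
-/

set_option autoImplicit false

namespace Pool.Agent.TH811.GS

open Complex Filter Topology MeasureTheory Set
open Pool.Agent.TH612.GS

noncomputable section

lemma norm_pow_re (X : ℕ) (hX : 0 < X) (s : ℂ) : ‖(X : ℂ) ^ s‖ = (X : ℝ) ^ s.re :=
  Complex.norm_natCast_cpow_of_pos hX s

/-- approximation by a Dirichlet polynomial of length `X` between `T ^ 2 / 2` and `T ^ 2` -/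
lemma approx {T : ℝ} {X : ℕ} (hT : 3 ≤ T) (hX1 : T ^ 2 / 2 ≤ (X : ℝ) - 1) {v : ℝ}
    (hv1 : 1 ≤ |v|) (hv2 : |v| ≤ T) :
    ‖riemannZeta (1 + I * v) - zN X (1 + I * v)‖ ≤ 1 / |v| + 3 / T := by
  set s : ℂ := 1 + I * v with hs
  have hT0 : 0 < T := by linarith
  have hXr : T ^ 2 / 2 ≤ (X : ℝ) := by linarith
  have hX9 : (9 / 2 : ℝ) ≤ (X : ℝ) - 1 := by nlinarith
  have hX0 : (0 : ℝ) < X := by linarith
  have hXn : 0 < X := by exact_mod_cast hX0
  have hX2 : 2 ≤ X := by
    have : (2 : ℝ) ≤ X := by linarith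
    exact_mod_cast this
  have hre : s.re = 1 := by simp [hs]
  have hv0 : v ≠ 0 := by
    intro h
    rw [h, abs_zero] at hv1
    linarith
  have hsm : s - 1 = I * v := by rw [hs]; ring
  have hs1 : s ≠ 1 := by
    intro h
    rw [h, sub_self] at hsm
    exact (mul_ne_zero I_ne_zero (by exact_mod_cast hv0)) hsm.symm
  have hnv : ‖s - 1‖ = |v| := by
    rw [hsm, norm_mul, Complex.norm_I, one_mul, Complex.norm_real, Real.norm_eq_abs]
  have hn : ∀ c : ℝ, 0 ≤ c → c ≤ 3 → ‖s + (c : ℂ)‖ ≤ 3 * T := by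
    intro c hc0 hc
    have e : s + (c : ℂ) = ((1 + c : ℝ) : ℂ) + I * v := by rw [hs]; push_cast; ring
    rw [e]
    refine (norm_add_le _ _).trans ?_
    rw [norm_mul, Complex.norm_I, one_mul, Complex.norm_real, Complex.norm_real, Real.norm_eq_abs,
      Real.norm_eq_abs, abs_of_nonneg (by linarith)]
    linarith
  have h0 := hn 0 le_rfl (by norm_num)
  have h1 := hn 1 (by norm_num) (by norm_num)
  have h2 := hn 2 (by norm_num) (by norm_num)
  have h3 := hn 3 (by norm_num) (by norm_num)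
  rw [Complex.ofReal_zero, add_zero] at h0
  rw [Complex.ofReal_one] at h1
  rw [Complex.ofReal_ofNat] at h2 h3
  -- Euler-Maclaurin
  have hem := Pool.Agent.H401R2.zeta_em X hX2 s (by rw [hre]; norm_num) hs1
  have hprod : ‖s * (s + 1) * (s + 2) * (s + 3)‖ ≤ 81 * T ^ 4 := by
    rw [norm_mul, norm_mul, norm_mul]
    calc ‖s‖ * ‖s + 1‖ * ‖s + 2‖ * ‖s + 3‖ ≤ (3 * T) * (3 * T) * (3 * T) * (3 * T) := by gcongr
      _ = 81 * T ^ 4 := by ring
  have hXr1 : (X : ℝ) ^ (-s.re) ≤ 2 / T ^ 2 := by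
    rw [hre, Real.rpow_neg_one, inv_le_comm₀ hX0 (by positivity)]
    rw [inv_div]
    exact hXr
  have hX3 : 1 / (3 * ((X : ℝ) - 1) ^ 3) ≤ 1 / (3 * (T ^ 2 / 2) ^ 3) := by
    gcongr
  have hE : ‖riemannZeta s - Pool.Agent.H401R2.emE X s‖ ≤ 1 / T := by
    refine hem.trans ?_
    calc ‖s * (s + 1) * (s + 2) * (s + 3)‖ / 720 * (X : ℝ) ^ (-s.re) * (1 / (3 * ((X : ℝ) - 1) ^ 3)) ≤
          81 * T ^ 4 / 720 * (2 / T ^ 2) * (1 / (3 * (T ^ 2 / 2) ^ 3)) := by
            gcongr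
      _ = 3 / 5 / T ^ 4 := by field_simp; ring
      _ ≤ 1 / T := by
        rw [div_le_div_iff₀ (by positivity) hT0]
        have h4 : T ^ 4 = T * T ^ 3 := by ring
        have h5 : (1 : ℝ) ≤ T ^ 3 := one_le_pow₀ (by linarith)
        rw [h4]
        nlinarith
  have hA : ‖(X : ℂ) ^ (-s) / 2‖ ≤ 1 / T := by
    rw [norm_div, norm_pow_re X hXn, Complex.neg_re]
    have : ‖(2 : ℂ)‖ = 2 := by simp
    rw [this]
    calc (X : ℝ) ^ (-s.re) / 2 ≤ (2 / T ^ 2) / 2 := by gcongr
      _ = 1 / T / T := by field_simp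
      _ ≤ 1 / T := div_le_self (by positivity) (by linarith)
  have hB : ‖(X : ℂ) ^ (1 - s) / (s - 1)‖ = 1 / |v| := by
    rw [norm_div, norm_pow_re X hXn, hnv, Complex.sub_re, Complex.one_re, hre, sub_self, Real.rpow_zero]
  have hC : ‖s * (X : ℂ) ^ (-s - 1) / 12‖ ≤ 1 / T := by
    rw [norm_div, norm_mul, norm_pow_re X hXn, Complex.sub_re, Complex.neg_re, Complex.one_re, hre]
    have e1 : ‖(12 : ℂ)‖ = 12 := by simp
    have e2 : (X : ℝ) ^ (-(1 : ℝ) - 1) ≤ 4 / T ^ 4 := by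
      rw [show (-(1 : ℝ) - 1) = -((2 : ℕ) : ℝ) by norm_num, Real.rpow_neg hX0.le, Real.rpow_natCast,
        inv_le_comm₀ (by positivity) (by positivity), inv_div]
      calc T ^ 4 / 4 = (T ^ 2 / 2) ^ 2 := by ring
        _ ≤ (X : ℝ) ^ 2 := by gcongr
    rw [e1]
    calc ‖s‖ * (X : ℝ) ^ (-(1 : ℝ) - 1) / 12 ≤ (3 * T) * (4 / T ^ 4) / 12 := by gcongr
      _ = 1 / T / T ^ 2 := by field_simp; ring
      _ ≤ 1 / T := div_le_self (by positivity) (one_le_pow₀ (by linarith))
  have hid : riemannZeta s - zN X s = (riemannZeta s - Pool.Agent.H401R2.emE X s) -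
      (X : ℂ) ^ (-s) / 2 + (X : ℂ) ^ (1 - s) / (s - 1) + s * (X : ℂ) ^ (-s - 1) / 12 := by
    have : zN X s = ZU.DN X s := rfl
    rw [this]
    unfold Pool.Agent.H401R2.emE
    ring
  rw [hid]
  refine (norm_add_le _ _).trans ?_
  refine (add_le_add ((norm_add_le _ _).trans (add_le_add (norm_sub_le _ _) le_rfl)) le_rfl).trans ?_
  rw [hB]
  have : 1 / |v| + 3 / T = 1 / T + 1 / T + 1 / |v| + 1 / T := by ring
  rw [this]
  gcongr

lemma harm_le (X : ℕ) : ∑ n ∈ Finset.Icc 1 X, (n : ℝ)⁻¹ ≤ 1 + Real.log X := by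
  have h := harmonic_le_one_add_log X
  rw [harmonic_eq_sum_Icc] at h
  push_cast at h
  exact h

lemma norm_term {n : ℕ} (hn : 1 ≤ n) (v : ℝ) : ‖(n : ℂ) ^ (-(1 + I * v))‖ = (n : ℝ)⁻¹ := by
  rw [norm_pow_re n hn]
  have : (-(1 + I * (v : ℂ))).re = -1 := by simp
  rw [this, Real.rpow_neg_one]

lemma norm_zN_le (X : ℕ) (v : ℝ) : ‖zN X (1 + I * v)‖ ≤ 1 + Real.log X := by
  unfold zN
  refine (norm_sum_le _ _).trans ?_
  rw [Finset.sum_congr rfl fun n hn => norm_term (Finset.mem_Icc.1 hn).1 v]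
  exact harm_le X

/-- the coefficients of the difference of two Dirichlet polynomials -/
def co (M : ℕ) (n : ℕ) : ℂ := if M < n then (n : ℂ)⁻¹ else 0

lemma zN_sub {M X : ℕ} (h : M ≤ X) (v : ℝ) : zN X (1 + I * v) - zN M (1 + I * v) =
    ∑ n ∈ Finset.Icc 1 X, co M n * (n : ℂ) ^ (-(I * v)) := by
  have e1 : zN M (1 + I * v) = ∑ n ∈ Finset.Icc 1 X, if n ≤ M then (n : ℂ) ^ (-(1 + I * (v : ℂ))) else 0 := by
    unfold zN
    rw [← Finset.sum_filter]
    refine Finset.sum_congr ?_ fun _ _ => rfl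
    ext n
    simp only [Finset.mem_Icc, Finset.mem_filter]
    omega
  rw [e1]
  unfold zN
  rw [← Finset.sum_sub_distrib]
  refine Finset.sum_congr rfl fun n hn => ?_
  have hn0 : (n : ℂ) ≠ 0 := by
    have := (Finset.mem_Icc.1 hn).1
    exact_mod_cast (by omega : n ≠ 0)
  have e2 : (n : ℂ) ^ (-(1 + I * (v : ℂ))) = (n : ℂ)⁻¹ * (n : ℂ) ^ (-(I * (v : ℂ))) := by
    rw [neg_add, Complex.cpow_add _ _ hn0, Complex.cpow_neg_one]
  unfold co
  by_cases h1 : n ≤ M
  · rw [if_pos h1, if_neg (by omega), sub_self, zero_mul]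
  · rw [if_neg h1, if_pos (by omega), sub_zero, e2]

lemma sum_co {M X : ℕ} (hM : 1 ≤ M) (h : M ≤ X) {T : ℝ} (hT : 0 ≤ T) :
    ∑ n ∈ Finset.Icc 1 X, (T + n) * ‖co M n‖ ^ 2 ≤ T / M + (1 + Real.log X) := by
  have e1 : ∑ n ∈ Finset.Icc 1 X, (T + n) * ‖co M n‖ ^ 2 =
      T * ∑ n ∈ Finset.Ioc M X, ((n : ℝ) ^ 2)⁻¹ + ∑ n ∈ Finset.Ioc M X, (n : ℝ)⁻¹ := by
    have e2 : Finset.Ioc M X = (Finset.Icc 1 X).filter (fun n => M < n) := by
      ext n
      simp only [Finset.mem_Icc, Finset.mem_filter, Finset.mem_Ioc]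
      omega
    rw [e2, Finset.mul_sum, ← Finset.sum_add_distrib, Finset.sum_filter]
    refine Finset.sum_congr rfl fun n hn => ?_
    have hn1 := (Finset.mem_Icc.1 hn).1
    have hn0 : (n : ℝ) ≠ 0 := by exact_mod_cast (by omega : n ≠ 0)
    unfold co
    split_ifs with h1
    · rw [norm_inv, Complex.norm_natCast]
      field_simp
    · simp
  rw [e1]
  have h1 := sum_Ioc_inv_sq_le_sub (α := ℝ) (k := M) (n := X) (by omega) h
  have h2 : ∑ n ∈ Finset.Ioc M X, (n : ℝ)⁻¹ ≤ 1 + Real.log X := by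
    refine le_trans ?_ (harm_le X)
    apply Finset.sum_le_sum_of_subset_of_nonneg
    · intro n hn
      rw [Finset.mem_Ioc] at hn
      rw [Finset.mem_Icc]
      omega
    · intro n _ _
      positivity
  have h3 : (0 : ℝ) ≤ (X : ℝ)⁻¹ := by positivity
  have h4 : T * ∑ n ∈ Finset.Ioc M X, ((n : ℝ) ^ 2)⁻¹ ≤ T * (M : ℝ)⁻¹ :=
    mul_le_mul_of_nonneg_left (by linarith) hT
  rw [div_eq_mul_inv]
  exact add_le_add h4 h2

lemma cont_P (M X : ℕ) : Continuous fun v : ℝ => ∑ n ∈ Finset.Icc 1 X, co M n * (n : ℂ) ^ (-(I * (v : ℂ))) := by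
  refine continuous_finsetSum _ fun n hn => ?_
  have hn0 : (n : ℂ) ≠ 0 := by
    have := (Finset.mem_Icc.1 hn).1
    exact_mod_cast (by omega : n ≠ 0)
  refine continuous_const.mul ?_
  exact Continuous.const_cpow (by fun_prop) (Or.inl hn0)

lemma cont_zN (M : ℕ) : Continuous fun v : ℝ => zN M (1 + I * v) := by
  unfold zN
  refine continuous_finsetSum _ fun n hn => ?_
  have hn0 : (n : ℂ) ≠ 0 := by
    have := (Finset.mem_Icc.1 hn).1
    exact_mod_cast (by omega : n ≠ 0)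
  exact Continuous.const_cpow (by fun_prop) (Or.inl hn0)

lemma cont_zeta {v : ℝ} (hv : 0 < v) : ContinuousAt (fun v : ℝ => riemannZeta (1 + I * v)) v := by
  have h1 : (1 : ℂ) + I * v ≠ 1 := by
    intro h
    have h2 : I * (v : ℂ) = 0 := by
      have := congrArg (fun z => z - 1) h
      simpa using this
    exact (mul_ne_zero I_ne_zero (by exact_mod_cast hv.ne')) h2
  have h2 := (differentiableAt_riemannZeta h1).continuousAt
  exact ContinuousAt.comp (f := fun v : ℝ => (1 : ℂ) + I * v) h2 (by fun_prop)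

theorem t_ONE (hMV : S_MV) : S_ONE := by
  obtain ⟨C, hC, hMV⟩ := hMV
  refine ⟨100 + 100 * C, 3, by positivity, le_rfl, ?_⟩
  intro T M hT hM hMT
  have hT0 : 0 < T := by linarith
  set X : ℕ := ⌊T ^ 2⌋₊ with hX
  have hXle : (X : ℝ) ≤ T ^ 2 := Nat.floor_le (by positivity)
  have hXlt : T ^ 2 < (X : ℝ) + 1 := Nat.lt_floor_add_one _
  have hX1 : T ^ 2 / 2 ≤ (X : ℝ) - 1 := by nlinarith
  have hX0 : (0 : ℝ) < X := by nlinarith
  have hlogT : 1 ≤ Real.log T := by
    rw [Real.le_log_iff_exp_le hT0]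
    have := Real.exp_one_lt_d9
    linarith
  have hlogX : Real.log X ≤ 2 * Real.log T := by
    have h := Real.log_le_log hX0 hXle
    rw [Real.log_pow] at h
    push_cast at h
    exact h
  constructor
  · intro v hv1 hv2
    have h1 := approx hT hX1 hv1 hv2
    have h2 := norm_zN_le X v
    have h3 : 1 / |v| ≤ 1 := by rw [div_le_one (by linarith)]; exact hv1
    have h4 : 3 / T ≤ 1 := by rw [div_le_one hT0]; exact hT
    have h5 : ‖riemannZeta (1 + I * v)‖ ≤ ‖riemannZeta (1 + I * v) - zN X (1 + I * v)‖ + ‖zN X (1 + I * v)‖ := by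
      have := norm_add_le (riemannZeta (1 + I * v) - zN X (1 + I * v)) (zN X (1 + I * v))
      rwa [sub_add_cancel] at this
    have h6 : 0 ≤ C * Real.log T := by positivity
    nlinarith
  · set r : ℝ := T ^ (1 / 2 : ℝ) with hr
    have hrr : r * r = T := by
      rw [hr, ← Real.rpow_add hT0]
      norm_num
    have hr0 : 0 < r := Real.rpow_pos_of_pos hT0 _
    have hr1 : 1 ≤ r := Real.one_le_rpow (by linarith) (by norm_num)
    have hrT : r ≤ T := by nlinarith
    have hM0 : (0 : ℝ) < M := by exact_mod_cast hM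
    have hrM : r ≤ T / M := by
      rw [le_div_iff₀ hM0, ← hrr]
      exact mul_le_mul_of_nonneg_left hMT hr0.le
    have hlog2 : Real.log T ≤ 2 * r := by
      have := Real.log_le_rpow_div hT0.le (ε := 1 / 2) (by norm_num)
      rw [← hr] at this
      linarith
    have hMX : M ≤ X := by
      have : (M : ℝ) ≤ X := by nlinarith
      exact_mod_cast this
    have hmv := hMV T X (co M) (by linarith) hXle
    have hsum := sum_co hM hMX hT0.le
    set P : ℝ → ℂ := fun v => ∑ n ∈ Finset.Icc 1 X, co M n * (n : ℂ) ^ (-(I * (v : ℂ))) with hP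
    have hPc : Continuous P := cont_P M X
    have hPi : ∀ a b : ℝ, IntervalIntegrable (fun v => ‖P v‖ ^ 2) volume a b := fun a b =>
      (hPc.norm.pow 2).intervalIntegrable a b
    have hfc : IntervalIntegrable (fun v : ℝ => ‖riemannZeta (1 + I * v) - zN M (1 + I * v)‖ ^ 2) volume r T := by
      apply ContinuousOn.intervalIntegrable
      rw [Set.uIcc_of_le hrT]
      intro v hv
      have h1 := (cont_zeta (lt_of_lt_of_le hr0 hv.1)).sub (cont_zN M).continuousAt
      exact (h1.norm.pow 2).continuousWithinAt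
    have hle : ∫ v in r..T, ‖riemannZeta (1 + I * v) - zN M (1 + I * v)‖ ^ 2 ≤
        ∫ v in r..T, (32 / T + 2 * ‖P v‖ ^ 2) := by
      apply intervalIntegral.integral_mono_on hrT hfc
      · exact (intervalIntegrable_const).add ((hPi r T).const_mul 2)
      · intro v hv
        have hv0 : 0 < v := lt_of_lt_of_le hr0 hv.1
        have h1 := approx hT hX1 (v := v) (by rw [abs_of_pos hv0]; linarith [hv.1])
          (by rw [abs_of_pos hv0]; exact hv.2)
        rw [abs_of_pos hv0] at h1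
        have h2 : 1 / v ≤ 1 / r := by
          apply one_div_le_one_div_of_le hr0 hv.1
        have h3 : 3 / T ≤ 3 / r := by gcongr
        have h4 : ‖riemannZeta (1 + I * v) - zN X (1 + I * v)‖ ≤ 4 / r := by
          have : 4 / r = 1 / r + 3 / r := by ring
          linarith
        have h5 : ‖riemannZeta (1 + I * v) - zN M (1 + I * v)‖ ≤ 4 / r + ‖P v‖ := by
          have e : riemannZeta (1 + I * v) - zN M (1 + I * v) =
              (riemannZeta (1 + I * v) - zN X (1 + I * v)) + P v := by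
            rw [hP]
            simp only
            rw [← zN_sub hMX]
            ring
          rw [e]
          exact (norm_add_le _ _).trans (add_le_add h4 le_rfl)
        have h6 : (4 / r) ^ 2 = 16 / T := by
          rw [div_pow, ← hrr]
          ring
        calc ‖riemannZeta (1 + I * v) - zN M (1 + I * v)‖ ^ 2 ≤ (4 / r + ‖P v‖) ^ 2 := by gcongr
          _ ≤ 2 * (4 / r) ^ 2 + 2 * ‖P v‖ ^ 2 := by nlinarith [sq_nonneg (4 / r - ‖P v‖)]
          _ = 32 / T + 2 * ‖P v‖ ^ 2 := by rw [h6]; ring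
    have hint : ∫ v in r..T, (32 / T + 2 * ‖P v‖ ^ 2) = (T - r) * (32 / T) + 2 * ∫ v in r..T, ‖P v‖ ^ 2 := by
      rw [intervalIntegral.integral_add intervalIntegrable_const ((hPi r T).const_mul 2),
        intervalIntegral.integral_const, intervalIntegral.integral_const_mul, smul_eq_mul]
    have hmono : ∫ v in r..T, ‖P v‖ ^ 2 ≤ ∫ v in (0:ℝ)..(2 * T), ‖P v‖ ^ 2 :=
      intervalIntegral.integral_mono_interval hr0.le hrT (by linarith)
        (Eventually.of_forall fun v => by positivity) (hPi _ _)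
    have hfirst : (T - r) * (32 / T) ≤ 32 := by
      rw [mul_div_assoc', div_le_iff₀ hT0]
      nlinarith
    have h7 : ∫ v in (0:ℝ)..(2 * T), ‖P v‖ ^ 2 ≤ C * (T / M + (1 + Real.log X)) :=
      hmv.trans (mul_le_mul_of_nonneg_left hsum hC.le)
    have h8 : T / M + (1 + Real.log X) ≤ 6 * (T / M) := by linarith
    have h9 : C * (T / M + (1 + Real.log X)) ≤ C * (6 * (T / M)) := mul_le_mul_of_nonneg_left h8 hC.le
    have h10 : (100 + 100 * C) * T / M = 100 * (T / M) + 100 * (C * (T / M)) := by ring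
    have h11 : 0 ≤ C * (T / M) := by positivity
    rw [h10]
    linarith

end

end Pool.Agent.TH811.GS
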